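import Pool.Agent.Helper76.TC2.Goals
import Pool.Agent.Helper23.TC.TU

/-!
# Project TC2, packet TU
-/

set_option autoImplicit false

open Set

namespace Pool.Agent.Helper81.TC2.TU

open Pool.Agent.Helper76.TC (fo mm Cell)
open Pool.Agent.Helper76.TC2
open Pool.Agent.Helper23.TC.TU (exists_cell mm_congr)

theorem t (hWT : S_WT) (hCL : S_CL2) (hCR : S_CR2) : S_TU2 := by
  intro p q
  obtain ⟨h1, -, h3, -⟩ := hWT 3 mm
  set δ := ‖p - q‖ with hδ
  have hδ0 : 0 ≤ δ := norm_nonneg _
  have hpq : ∀ i, |p i - q i| ≤ δ := fun i => by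
    have := norm_le_pi_norm (p - q) i
    rwa [Pi.sub_apply, Real.norm_eq_abs] at this
  choose y hc hfo hd using fun i => exists_cell (p i) (q i)
  have hyp : ∀ i, |y i - p i| ≤ δ := fun i => by
    have h4 := hd i
    have h5 := hpq i
    rw [abs_sub_comm] at h5
    exact h4.trans h5
  have hmy : mm y = mm q := mm_congr hfo
  have hn : ‖p - y‖ ≤ δ := by
    rw [pi_norm_le_iff_of_nonneg hδ0]
    intro i
    rw [Pi.sub_apply, Real.norm_eq_abs, abs_sub_comm]
    exact hyp i
  have s0 : W 3 mm (3 * δ) |mm p - mm q| p y := by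
    have h := hCL p y hc
    rw [hmy] at h
    exact h3 _ _ _ _ _ _ (by linarith) le_rfl h
  have step : ∀ (z : Fin 3 → ℝ) (i : Fin 3), (∀ j, |z j - p j| ≤ δ) →
      (∀ j, fo (z j) = fo (q j)) → W 3 mm (14 * δ) 0 z (Function.update z i (q i)) := by
    intro z i e1 e2
    have hqz : |q i - z i| ≤ 2 * δ := by
      have h4 := e1 i
      have h5 := hpq i
      have h6 : |q i - z i| ≤ |q i - p i| + |p i - z i| := abs_sub_le _ _ _
      rw [abs_sub_comm (q i) (p i), abs_sub_comm (p i) (z i)] at h6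
      linarith
    exact h3 _ _ _ _ _ _ (by linarith) le_rfl (hCR z i (q i) (e2 i).symm)
  have inv1 : ∀ (z : Fin 3 → ℝ) (i : Fin 3), (∀ j, |z j - p j| ≤ δ) →
      (∀ j, |Function.update z i (q i) j - p j| ≤ δ) := by
    intro z i e1 j
    by_cases hj : j = i
    · subst hj
      rw [Function.update_self, abs_sub_comm]
      exact hpq j
    · rw [Function.update_of_ne hj]
      exact e1 j
  have inv2 : ∀ (z : Fin 3 → ℝ) (i : Fin 3), (∀ j, fo (z j) = fo (q j)) →
      (∀ j, fo (Function.update z i (q i) j) = fo (q j)) := by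
    intro z i e1 j
    by_cases hj : j = i
    · subst hj
      rw [Function.update_self]
    · rw [Function.update_of_ne hj]
      exact e1 j
  have s1 := step y 0 hyp hfo
  have s2 := step _ 1 (inv1 y 0 hyp) (inv2 y 0 hfo)
  have s3 := step _ 2 (inv1 _ 1 (inv1 y 0 hyp)) (inv2 _ 1 (inv2 y 0 hfo))
  have he : Function.update (Function.update (Function.update y 0 (q 0)) 1 (q 1)) 2 (q 2) =
      q := by
    funext i
    fin_cases i
    · rfl
    · rfl
    · rfl
  rw [he] at s3
  have s := h1 _ _ _ _ _ _ _ (h1 _ _ _ _ _ _ _ (h1 _ _ _ _ _ _ _ s0 s1) s2) s3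
  exact h3 _ _ _ _ _ _ (by linarith) (by linarith) s

end Pool.Agent.Helper81.TC2.TU
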